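import Pool.Agent.Helper86.QA.St4

/-!
# Project QD, part A, module WHM: the homeomorphism of the sphere
-/

set_option autoImplicit false

open MeasureTheory Matrix Set Topology Filter
open scoped ENNReal ComplexConjugate ComplexOrder

namespace Pool.Agent.Helper40.QA

open Pool.Agent.Helper86.QA Pool.Agent.Helper20
open Pool.Agent.Helper20.QD (Qp Qinf sph act fr mob)
open Pool.Agent.Helper35.PM (density)

private lemma one_add_ne (z : ℂ) : ((1 + ‖z‖ ^ 2 : ℝ) : ℂ) ≠ 0 := by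
  have : (0 : ℝ) < 1 + ‖z‖ ^ 2 := by positivity
  exact_mod_cast this.ne'

private lemma Qp11 (z : ℂ) : Qp z 1 1 = ((1 + ‖z‖ ^ 2 : ℝ) : ℂ)⁻¹ := by
  simp [Qp]

private lemma Qp01 (z : ℂ) : Qp z 0 1 = ((1 + ‖z‖ ^ 2 : ℝ) : ℂ)⁻¹ * z := by
  simp [Qp]

private lemma wh_Qp (w : ℂ → ℂ) (z : ℂ) : wh w (Qp z) = Qp (w z) := by
  have h1 : Qp z 1 1 ≠ 0 := by
    rw [Qp11]
    exact inv_ne_zero (one_add_ne z)
  have h2 : Qp z 0 1 / Qp z 1 1 = z := by
    rw [Qp11, Qp01]
    field_simp [one_add_ne z]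
  unfold wh
  rw [if_neg h1, h2]

private lemma wh_Qinf (w : ℂ → ℂ) : wh w Qinf = Qinf := by
  unfold wh
  rw [if_pos]
  simp [Qinf]

/-- the chart at infinity -/
private noncomputable def gch (u : ℂ) : Mat :=
  ((1 + ‖u‖ ^ 2 : ℝ) : ℂ)⁻¹ • !![1, conj u; u, ((‖u‖ ^ 2 : ℝ) : ℂ)]

private lemma gch_cont : Continuous gch := by
  have h1 : Continuous (fun u : ℂ => ((1 + ‖u‖ ^ 2 : ℝ) : ℂ)⁻¹) :=
    Continuous.inv₀ (by fun_prop) one_add_ne
  have h2 : Continuous (fun u : ℂ => (!![1, conj u; u, ((‖u‖ ^ 2 : ℝ) : ℂ)] : Mat)) := by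
    refine continuous_matrix fun i j => ?_
    fin_cases i <;> fin_cases j <;> simp <;> fun_prop
  exact h1.smul h2

private lemma gch_zero : gch 0 = Qinf := by
  simp [gch, Qinf]

private lemma gch_inv {z : ℂ} (hz : z ≠ 0) : gch z⁻¹ = Qp z := by
  have h1 : (‖z‖ : ℝ) ≠ 0 := norm_ne_zero_iff.2 hz
  have h1' : ((‖z‖ : ℝ) : ℂ) ≠ 0 := by exact_mod_cast h1
  have h2 := one_add_ne z
  have h4 : ((1 + ‖z⁻¹‖ ^ 2 : ℝ) : ℂ)⁻¹ = ((1 + ‖z‖ ^ 2 : ℝ) : ℂ)⁻¹ * ((‖z‖ : ℝ) : ℂ) ^ 2 := by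
    rw [norm_inv]
    push_cast at h2 ⊢
    have h5 : (1 : ℂ) + (((‖z‖ : ℝ) : ℂ)⁻¹) ^ 2 = (1 + ((‖z‖ : ℝ) : ℂ) ^ 2) / ((‖z‖ : ℝ) : ℂ) ^ 2 := by
      field_simp
      ring
    rw [h5, inv_div, div_eq_mul_inv, mul_comm]
  have h6 : ((‖z‖ : ℝ) : ℂ) ^ 2 = z * conj z := by
    rw [Complex.mul_conj, Complex.normSq_eq_norm_sq]
    push_cast
    ring
  have h7 : conj z ≠ 0 := by simpa using hz
  unfold gch Qp
  rw [h4]
  ext i j
  fin_cases i <;> fin_cases j
  · simp
  · simp [h6, map_inv₀]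
    field_simp
  · simp [h6]
    field_simp
  · simp [norm_inv]
    field_simp

private lemma sph_eq (hLQC : QD.StLQC) :
    sph = Qp '' Metric.closedBall 0 1 ∪ gch '' Metric.closedBall 0 1 := by
  obtain ⟨hc, hinf, hQp, -⟩ := hLQC
  ext Q
  constructor
  · intro hQ
    rcases hc Q hQ with rfl | ⟨z, rfl⟩
    · exact Or.inr ⟨0, by simp, gch_zero⟩
    · by_cases hz : ‖z‖ ≤ 1
      · exact Or.inl ⟨z, by simpa using hz, rfl⟩
      · have hz0 : z ≠ 0 := by
          rintro rfl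
          exact hz (by simp)
        refine Or.inr ⟨z⁻¹, ?_, gch_inv hz0⟩
        rw [mem_closedBall_zero_iff, norm_inv]
        exact inv_le_one_of_one_le₀ (not_le.1 hz).le
  · rintro (⟨z, -, rfl⟩ | ⟨u, -, rfl⟩)
    · exact (hQp z).1
    · by_cases hu : u = 0
      · rw [hu, gch_zero]
        exact hinf
      · have := gch_inv (inv_ne_zero hu)
        rw [inv_inv] at this
        rw [this]
        exact (hQp _).1

private lemma act_one {Q : Mat} (hQ : Q.trace = 1) : act 1 Q = Q := by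
  unfold act density
  simp [hQ]

/-- MODULE WHM. -/
theorem hWHM (hLFR : QD.StLFR) (hLQC : QD.StLQC) : StWHM := by
  intro w hw
  have hsph := sph_eq hLQC
  obtain ⟨hc, hinf, hQp, -, hfr, hQpc, hQpi, hact, hactm, -, hactmul⟩ := hLQC
  refine ⟨wh_Qp w, wh_Qinf w, ?_, ⟨?_, ?_, ?_⟩, ?_, ?_⟩
  · -- continuity
    intro Q hQ
    rcases hc Q hQ with rfl | ⟨z, rfl⟩
    · -- at infinity
      have hb := hLFR.2.2.2 Qinf
      unfold ContinuousWithinAt
      rw [wh_Qinf, hb.tendsto_right_iff]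
      intro δ hδ
      -- a radius for the target
      obtain ⟨R, hR⟩ : ∃ R : ℝ, ∀ z : ℂ, R < ‖z‖ → 2 / (1 + ‖z‖ ^ 2) < δ := by
        refine ⟨2 / δ + 1, fun z hz => ?_⟩
        have h0 : 0 < 2 / δ := by positivity
        rw [div_lt_iff₀ (by positivity)]
        have h1 : 2 / δ < ‖z‖ := by linarith
        have h2 : 2 < ‖z‖ * δ := (div_lt_iff₀ hδ).1 h1
        have h3 : 1 < ‖z‖ := by linarith
        have h4 : ‖z‖ * δ ≤ δ * (1 + ‖z‖ ^ 2) := by nlinarith
        linarith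
      have hK : IsCompact (w ⁻¹' Metric.closedBall 0 R) :=
        hw.homeomorph.isClosedEmbedding.isCompact_preimage (isCompact_closedBall (0 : ℂ) R)
      obtain ⟨M, hM⟩ := hK.isBounded.exists_norm_le
      have hev := hb.mem_of_mem (i := 2 / (1 + (max M 0) ^ 2)) (by positivity)
      rw [eventually_nhdsWithin_iff]
      filter_upwards [hev] with Q hQ1 hQs
      have hQ1' : fr Q Qinf < 2 / (1 + (max M 0) ^ 2) := hQ1
      show fr (wh w Q) Qinf < δ
      rcases hc Q hQs with rfl | ⟨z, rfl⟩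
      · rw [wh_Qinf]
        have h5 : fr Qinf Qinf = 0 := by
          simp [fr, Pool.Agent.Helper35.PM.hs]
        rw [h5]
        exact hδ
      · rw [wh_Qp, (hLFR.1 _ _).2.1, hfr]
        rw [(hLFR.1 _ _).2.1, hfr] at hQ1'
        apply hR
        by_contra hcon
        have h6 : z ∈ w ⁻¹' Metric.closedBall 0 R := by
          simpa using not_lt.1 hcon
        have h7 := hM z h6
        have h8 : ‖z‖ ^ 2 ≤ (max M 0) ^ 2 :=
          pow_le_pow_left₀ (norm_nonneg z) (h7.trans (le_max_left _ _)) 2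
        have h9 : 2 / (1 + (max M 0) ^ 2) ≤ 2 / (1 + ‖z‖ ^ 2) :=
          div_le_div_of_nonneg_left (by norm_num) (by positivity) (by linarith)
        linarith
    · -- at a finite point
      have h1 : Qp z 1 1 ≠ 0 := by
        rw [Qp11]
        exact inv_ne_zero (one_add_ne z)
      have hc11 : Continuous (fun Q : Mat => Q 1 1) := continuous_id.matrix_elem 1 1
      have hc01 : Continuous (fun Q : Mat => Q 0 1) := continuous_id.matrix_elem 0 1
      have h2 : ContinuousAt (fun Q : Mat => Qp (w (Q 0 1 / Q 1 1))) (Qp z) := by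
        refine hQpc.continuousAt.comp (hw.continuous.continuousAt.comp ?_)
        exact hc01.continuousAt.div hc11.continuousAt h1
      have h3 : wh w =ᶠ[𝓝 (Qp z)] fun Q : Mat => Qp (w (Q 0 1 / Q 1 1)) := by
        filter_upwards [hc11.continuousAt.eventually_ne h1] with Q hQ
        unfold wh
        rw [if_neg hQ]
      exact (h2.congr h3.symm).continuousWithinAt
  · intro Q hQ
    rcases hc Q hQ with rfl | ⟨z, rfl⟩
    · rw [wh_Qinf]
      exact hinf
    · rw [wh_Qp]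
      exact (hQp _).1
  · intro Q hQ Q' hQ' h
    rcases hc Q hQ with rfl | ⟨z, rfl⟩
    · rcases hc Q' hQ' with rfl | ⟨z', rfl⟩
      · rfl
      · rw [wh_Qinf, wh_Qp] at h
        exact absurd h.symm (hQp _).2
    · rcases hc Q' hQ' with rfl | ⟨z', rfl⟩
      · rw [wh_Qinf, wh_Qp] at h
        exact absurd h (hQp _).2
      · rw [wh_Qp, wh_Qp] at h
        rw [hw.injective (hQpi h)]
  · intro Q hQ
    rcases hc Q hQ with rfl | ⟨u, rfl⟩
    · exact ⟨Qinf, hinf, wh_Qinf w⟩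
    · obtain ⟨z, rfl⟩ := hw.surjective u
      exact ⟨Qp z, (hQp z).1, wh_Qp w z⟩
  · rw [hsph]
    exact ((isCompact_closedBall (0 : ℂ) 1).image hQpc).union
      ((isCompact_closedBall (0 : ℂ) 1).image gch_cont)
  · intro Γ _ σ ρ hTM γ Q hQ
    -- inverse elements
    have hinv : ∀ (A : SL) (Q : Mat), Q ∈ sph → act A⁻¹ (act A Q) = Q := by
      intro A Q hQ
      rw [← hactmul A⁻¹ A Q hQ.1 hQ.2.1, inv_mul_cancel, act_one hQ.2.1]
    have hinv' : ∀ (A : SL) (Q : Mat), Q ∈ sph → act A (act A⁻¹ Q) = Q := by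
      intro A Q hQ
      have := hinv A⁻¹ Q hQ
      rwa [inv_inv] at this
    have hden : ∀ (A : SL) (z : ℂ), act A (Qp z) = Qinf → QD.den A z = 0 := by
      intro A z h
      by_contra h0
      rw [(hact A z).1 h0] at h
      exact (hQp _).2 h
    rcases hc Q hQ with rfl | ⟨z, rfl⟩
    · rw [wh_Qinf]
      rcases hc _ (hactm (σ γ) Qinf hinf) with h | ⟨z, h⟩
      · rw [h, wh_Qinf]
        rcases hc _ (hactm (ρ γ) Qinf hinf) with h' | ⟨u, h'⟩
        · exact h'.symm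
        · exfalso
          obtain ⟨z, rfl⟩ := hw.surjective u
          have h1 : act (ρ γ⁻¹) (Qp (w z)) = Qinf := by
            rw [map_inv, ← h', hinv _ _ hinf]
          have h2 := hden _ _ h1
          have h3 := (hTM.eq γ⁻¹ z).1.2 h2
          have h4 := (hact (σ γ⁻¹) z).2 h3
          have h5 : act (σ γ) Qinf = Qp z := by
            rw [← h4, map_inv]
            exact hinv' _ _ (hQp z).1
          rw [h] at h5
          exact (hQp z).2 h5.symm
      · rw [h, wh_Qp]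
        have h1 : act (σ γ⁻¹) (Qp z) = Qinf := by
          rw [map_inv, ← h, hinv _ _ hinf]
        have h3 := (hTM.eq γ⁻¹ z).1.1 (hden _ _ h1)
        have h4 := (hact (ρ γ⁻¹) (w z)).2 h3
        rw [← h4, map_inv]
        exact (hinv' _ _ (hQp _).1).symm
    · rw [wh_Qp]
      by_cases h0 : QD.den (σ γ) z = 0
      · rw [(hact _ _).2 h0, wh_Qinf, (hact _ _).2 ((hTM.eq γ z).1.1 h0)]
      · have h0' : QD.den (ρ γ) (w z) ≠ 0 := fun h => h0 ((hTM.eq γ z).1.2 h)
        rw [(hact _ _).1 h0, wh_Qp, (hact _ _).1 h0', (hTM.eq γ z).2 h0]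

end Pool.Agent.Helper40.QA
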