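import Pool.Agent.Helper86.QA.St3

/-!
# Project QD, part A, module ARE: the two invariant areas
-/

set_option autoImplicit false

open MeasureTheory Matrix Set Topology
open scoped ENNReal ComplexConjugate

namespace Pool.Agent.Helper40.QA

open Pool.Agent.Helper86.QA

private lemma hasDerivAt_mb (g : SL) {ξ : ℂ} (h : g 1 0 * ξ + g 1 1 ≠ 0) :
    HasDerivAt (mb g) (1 / (g 1 0 * ξ + g 1 1) ^ 2) ξ := by
  have hdet : g 0 0 * g 1 1 - g 0 1 * g 1 0 = 1 := by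
    have := g.det_coe
    rwa [Matrix.det_fin_two] at this
  have h1 : HasDerivAt (fun x : ℂ => g 0 0 * x + g 0 1) (g 0 0) ξ := by
    simpa using ((hasDerivAt_id ξ).const_mul (g 0 0)).add_const (g 0 1)
  have h2 : HasDerivAt (fun x : ℂ => g 1 0 * x + g 1 1) (g 1 0) ξ := by
    simpa using ((hasDerivAt_id ξ).const_mul (g 1 0)).add_const (g 1 1)
  have h3 := h1.div h2 h
  have h4 : (g 0 0 * (g 1 0 * ξ + g 1 1) - (g 0 0 * ξ + g 0 1) * g 1 0) = 1 := by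
    linear_combination hdet
  rw [h4] at h3
  exact h3

/-- the transformation rule of the density -/
private lemma rX_rule {A : Set ℂ} (hA : IsOpen A) {F : ℂ → ℂ} (hF : DifferentiableOn ℂ F A)
    {g s : SL} {ξ : ℂ} (hξ : ξ ∈ A) (hp : g 1 0 * ξ + g 1 1 ≠ 0) (hgξ : mb g ξ ∈ A)
    (heq : ∀ x ∈ A, F (mb g x) = mb s (F x)) (hq : s 1 0 * F ξ + s 1 1 ≠ 0)
    (him : (mb s (F ξ)).im = (F ξ).im / ‖s 1 0 * F ξ + s 1 1‖ ^ 2) :
    rX F (mb g ξ) = rX F ξ * ‖g 1 0 * ξ + g 1 1‖ ^ 4 := by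
  have h1 : HasDerivAt F (deriv F ξ) ξ := (hF.differentiableAt (hA.mem_nhds hξ)).hasDerivAt
  have h2 : HasDerivAt F (deriv F (mb g ξ)) (mb g ξ) :=
    (hF.differentiableAt (hA.mem_nhds hgξ)).hasDerivAt
  have h3 : HasDerivAt (fun x => F (mb g x)) (deriv F (mb g ξ) * (1 / (g 1 0 * ξ + g 1 1) ^ 2)) ξ :=
    h2.comp ξ (hasDerivAt_mb g hp)
  have h4 : HasDerivAt (fun x => mb s (F x)) (1 / (s 1 0 * F ξ + s 1 1) ^ 2 * deriv F ξ) ξ :=
    (hasDerivAt_mb s hq).comp ξ h1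
  have h5 : (fun x => F (mb g x)) =ᶠ[𝓝 ξ] fun x => mb s (F x) := by
    filter_upwards [hA.mem_nhds hξ] with x hx using heq x hx
  have h6 := h3.unique (h4.congr_of_eventuallyEq h5)
  have h7 : ‖deriv F (mb g ξ)‖ * ‖s 1 0 * F ξ + s 1 1‖ ^ 2 =
      ‖deriv F ξ‖ * ‖g 1 0 * ξ + g 1 1‖ ^ 2 := by
    have h8 : deriv F (mb g ξ) * (s 1 0 * F ξ + s 1 1) ^ 2 =
        deriv F ξ * (g 1 0 * ξ + g 1 1) ^ 2 := by
      field_simp at h6
      linear_combination h6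
    have := congrArg norm h8
    simpa only [norm_mul, norm_pow] using this
  have hp' : 0 < ‖g 1 0 * ξ + g 1 1‖ := norm_pos_iff.2 hp
  have hq' : 0 < ‖s 1 0 * F ξ + s 1 1‖ := norm_pos_iff.2 hq
  unfold rX
  rw [heq ξ hξ, him]
  have h9 : ‖deriv F (mb g ξ)‖ = ‖deriv F ξ‖ * ‖g 1 0 * ξ + g 1 1‖ ^ 2 /
      ‖s 1 0 * F ξ + s 1 1‖ ^ 2 := by
    rw [← h7]
    field_simp
  rw [h9]
  rcases eq_or_ne (F ξ).im 0 with h0 | h0
  · rw [h0]
    simp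
  · field_simp

/-- MODULE ARE. -/
theorem hARE (_hCHV : StCHV) (hSW1 : StSW1) (hAWB : StAWB) (hACU : StACU) (hCPA : StCPA)
    (hARC : StARC) : StARE := by
  intro Γ _ ρ A B hKD F σ hCF DA hDA
  obtain ⟨hawm, hawc, hawp, hawt⟩ := hAWB Γ ρ A B hKD
  obtain ⟨hcount, -, hact, hsf, -⟩ := hACU Γ ρ A B hKD
  obtain ⟨KA, hKA, hKAA, hKAc, -⟩ := hCPA Γ ρ A B hKD
  have hFpos : ∀ ξ ∈ A, F ξ ∈ HP := by
    intro ξ hξ
    rw [← hCF.img]
    exact mem_image_of_mem F hξ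
  have hrule : ∀ γ : Γ, ∀ ξ ∈ A, rX F (mb (ρ γ) ξ) = rX F ξ * ‖ρ γ 1 0 * ξ + ρ γ 1 1‖ ^ 4 := by
    intro γ ξ hξ
    obtain ⟨-, h2, h3⟩ := hARC.2.2.2.1 (σ γ) (hCF.rea γ) (F ξ) (hFpos ξ hξ)
    exact rX_rule hKD.opA hCF.dif hξ (hKD.mpA γ ξ hξ).1 (hKD.mpA γ ξ hξ).2 (hCF.equ γ) h2 h3
  have hdc : ContinuousOn (deriv F) A := (hCF.dif.deriv hKD.opA).continuousOn
  have hrc : ContinuousOn (rX F) A := by
    unfold rX
    refine ContinuousOn.div (hdc.norm.pow 2)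
      ((Complex.continuous_im.comp_continuousOn hCF.dif.continuousOn).pow 2) ?_
    intro ξ hξ
    exact pow_ne_zero 2 (ne_of_gt (hFpos ξ hξ))
  have hr0 : ∀ ξ, 0 ≤ rX F ξ := fun ξ => by
    unfold rX
    positivity
  -- the bound
  have hC : ∃ C > 0, ∀ ξ ∈ A, rX F ξ ≤ C * (aw B ξ).toReal := by
    obtain ⟨C, hC⟩ := hKA.exists_bound_of_continuousOn
      (ContinuousOn.div (hrc.mono hKAA) (hawc.mono hKAA) (fun ξ hξ => (hawp ξ (hKAA hξ)).2.ne'))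
    refine ⟨max C 1, lt_max_of_lt_right one_pos, ?_⟩
    intro ξ hξ
    obtain ⟨γ, hγ⟩ := hKAc ξ hξ
    have h1 := hC (ab ρ γ ξ) hγ
    have hp := (hKD.mpA γ ξ hξ).1
    have hp' : 0 < ‖ρ γ 1 0 * ξ + ρ γ 1 1‖ ^ 4 := pow_pos (norm_pos_iff.2 hp) 4
    have hw := (hawp ξ hξ).2
    have h2 : (aw B (ab ρ γ ξ)).toReal = (aw B ξ).toReal * ‖ρ γ 1 0 * ξ + ρ γ 1 1‖ ^ 4 := by
      rw [ab, hawt γ ξ hξ, ENNReal.toReal_mul, ENNReal.toReal_ofReal hp'.le]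
    have h3 : rX F (ab ρ γ ξ) = rX F ξ * ‖ρ γ 1 0 * ξ + ρ γ 1 1‖ ^ 4 := hrule γ ξ hξ
    have h4 : rX F (ab ρ γ ξ) / (aw B (ab ρ γ ξ)).toReal = rX F ξ / (aw B ξ).toReal := by
      rw [h2, h3]
      field_simp
    simp only [Pi.div_apply] at h1
    rw [h4] at h1
    have h5 : rX F ξ / (aw B ξ).toReal ≤ max C 1 :=
      (Real.le_norm_self _).trans (h1.trans (le_max_left _ _))
    exact (div_le_iff₀ hw).1 h5
  -- finiteness
  have hKfin : ∫⁻ ξ in KA, aw B ξ ≠ ∞ := by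
    obtain ⟨M, hM⟩ := hKA.exists_bound_of_continuousOn (hawc.mono hKAA)
    have h1 : ∫⁻ ξ in KA, aw B ξ ≤ ∫⁻ _ξ in KA, ENNReal.ofReal M := by
      refine setLIntegral_mono' hKA.measurableSet fun ξ hξ => ?_
      rw [← ENNReal.ofReal_toReal (hawp ξ (hKAA hξ)).1]
      exact ENNReal.ofReal_le_ofReal ((Real.le_norm_self _).trans (hM ξ hξ))
    refine ne_top_of_le_ne_top ?_ h1
    rw [setLIntegral_const]
    exact ENNReal.mul_ne_top ENNReal.ofReal_ne_top hKA.measure_lt_top.ne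
  have hmA : ∀ S : Set ℂ, MeasurableSet S → S ⊆ A → mA A B S = ∫⁻ ξ in S, aw B ξ := by
    intro S hS hSA
    unfold mA
    rw [withDensity_apply _ hS, Measure.restrict_restrict hS, inter_eq_left.2 hSA]
  have hDfin : ∫⁻ ξ in DA, aw B ξ ≠ ∞ := by
    have := hcount
    have := hsf
    have h1 := (hSW1 Γ ℂ (ab ρ) A DA (mA A B) (fun _ => 1) hact hDA measurable_const
      (fun _ _ _ => rfl)).1 (KA.indicator fun _ => 1)
      (measurable_const.indicator hKA.measurableSet)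
    simp only [one_mul] at h1
    rw [lintegral_indicator hKA.measurableSet, setLIntegral_one, hmA KA hKA.measurableSet hKAA] at h1
    have h2 : ∫⁻ _ξ in DA, 1 ∂(mA A B) ≤ ∫⁻ ξ in KA, aw B ξ := by
      rw [← h1]
      refine setLIntegral_mono' hDA.mD fun ξ hξ => ?_
      obtain ⟨γ, hγ⟩ := hKAc ξ (hDA.sub hξ)
      have h3 : (KA.indicator (fun _ => (1 : ℝ≥0∞)) (ab ρ γ ξ)) = 1 := indicator_of_mem hγ _
      exact h3.symm.le.trans
        (ENNReal.le_tsum (f := fun δ : Γ => KA.indicator (fun _ => (1 : ℝ≥0∞)) (ab ρ δ ξ)) γ)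
    rw [setLIntegral_one, hmA DA hDA.mD hDA.sub] at h2
    exact ne_top_of_le_ne_top hKfin h2
  refine ⟨hrule, hrc, hdc, hC, hDfin, ?_⟩
  obtain ⟨C, hC0, hC1⟩ := hC
  have h1 : Integrable (fun ξ => C * (aw B ξ).toReal) (volume.restrict DA) :=
    (integrable_toReal_of_lintegral_ne_top hawm.aemeasurable hDfin).const_mul C
  refine Integrable.mono' h1 ((hrc.mono hDA.sub).aestronglyMeasurable hDA.mD) ?_
  filter_upwards [ae_restrict_mem hDA.mD] with ξ hξ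
  rw [Real.norm_of_nonneg (hr0 ξ)]
  exact hC1 ξ (hDA.sub hξ)

end Pool.Agent.Helper40.QA
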