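import Pool.Agent.Helper86.QA.St2

/-!
# Project QD, part A, module SCH: the Schur test
-/

set_option autoImplicit false

open MeasureTheory Matrix Set Topology
open scoped ENNReal ComplexConjugate

namespace Pool.Agent.Helper40.QA

open Pool.Agent.Helper86.QA
open Pool.Agent.Helper35.PM (hs)

/-- weighted AM-GM in the extended nonnegative reals -/
private lemma amgm {a b p q : ℝ≥0∞} (ha : a ≠ ∞) (hb : b ≠ ∞) (hp0 : p ≠ 0) (hp : p ≠ ∞)
    (hq0 : q ≠ 0) (hq : q ≠ ∞) : 2 * (a * b) ≤ a ^ 2 * (q / p) + b ^ 2 * (p / q) := by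
  lift a to NNReal using ha
  lift b to NNReal using hb
  lift p to NNReal using hp
  lift q to NNReal using hq
  have hp0' : p ≠ 0 := by exact_mod_cast hp0
  have hq0' : q ≠ 0 := by exact_mod_cast hq0
  rw [← ENNReal.coe_div hp0', ← ENNReal.coe_div hq0']
  have h : 2 * (a * b) ≤ a ^ 2 * (q / p) + b ^ 2 * (p / q) := by
    rw [← NNReal.coe_le_coe]
    push_cast
    have h1 : (0 : ℝ) < p := NNReal.coe_pos.2 (pos_iff_ne_zero.2 hp0')
    have h2 : (0 : ℝ) < q := NNReal.coe_pos.2 (pos_iff_ne_zero.2 hq0')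
    have h3 : (a : ℝ) ^ 2 * (q / p) + (b : ℝ) ^ 2 * (p / q) =
        ((a : ℝ) ^ 2 * q ^ 2 + (b : ℝ) ^ 2 * p ^ 2) / (p * q) := by
      field_simp
    rw [h3, le_div_iff₀ (mul_pos h1 h2)]
    nlinarith [sq_nonneg ((a : ℝ) * q - b * p)]
  exact_mod_cast h

/-- additivity of the double integral -/
private lemma J_add (D : Set Pt) {h h' : Pt → Pt → ℝ≥0∞}
    (hm : Measurable (fun p : Pt × Pt => h p.1 p.2)) :
    ∫⁻ x in D, ∫⁻ y, (h x y + h' x y) ∂vol ∂vol =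
      ∫⁻ x in D, ∫⁻ y, h x y ∂vol ∂vol + ∫⁻ x in D, ∫⁻ y, h' x y ∂vol ∂vol := by
  rw [← lintegral_add_left (Measurable.lintegral_prod_right' hm)]
  refine lintegral_congr fun x => ?_
  exact lintegral_add_left (hm.comp measurable_prodMk_left) _

/-- monotonicity of the double integral -/
private lemma J_mono {D : Set Pt} (hD : MeasurableSet D) (hDu : D ⊆ up) {h h' : Pt → Pt → ℝ≥0∞}
    (hle : ∀ x ∈ up, ∀ y ∈ up, h x y ≤ h' x y) :
    ∫⁻ x in D, ∫⁻ y, h x y ∂vol ∂vol ≤ ∫⁻ x in D, ∫⁻ y, h' x y ∂vol ∂vol := by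
  refine setLIntegral_mono' hD fun x hx => ?_
  exact lintegral_mono_ae (ae_up.mono fun y hy => hle x (hDu hx) y hy)

private lemma J_congr {D : Set Pt} (hD : MeasurableSet D) (hDu : D ⊆ up)
    {h h' : Pt → Pt → ℝ≥0∞} (hle : ∀ x ∈ up, ∀ y ∈ up, h x y = h' x y) :
    ∫⁻ x in D, ∫⁻ y, h x y ∂vol ∂vol = ∫⁻ x in D, ∫⁻ y, h' x y ∂vol ∂vol :=
  le_antisymm (J_mono hD hDu fun x hx y hy => (hle x hx y hy).le)
    (J_mono hD hDu fun x hx y hy => (hle x hx y hy).ge)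

/-- the cancellation at the end -/
private lemma final_cancel {V a : ℝ} {I E : ℝ≥0∞} (ha : 0 ≤ a) (hI : I ≠ ∞)
    (h : ENNReal.ofReal V * I + ENNReal.ofReal V * I ≤
      E + (ENNReal.ofReal a * I + ENNReal.ofReal a * I)) :
    ENNReal.ofReal (2 * (V - a)) * I ≤ E := by
  rcases le_or_gt V a with hVa | hVa
  · rw [ENNReal.ofReal_of_nonpos (by linarith), zero_mul]
    exact zero_le
  · have h1 : ENNReal.ofReal (2 * (V - a)) * I + (ENNReal.ofReal a * I + ENNReal.ofReal a * I) =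
        ENNReal.ofReal V * I + ENNReal.ofReal V * I := by
      rw [← add_mul, ← add_mul, ← add_mul, ← ENNReal.ofReal_add ha ha,
        ← ENNReal.ofReal_add (by linarith) (by linarith),
        ← ENNReal.ofReal_add (by linarith) (by linarith)]
      congr 2
      ring
    have h2 : ENNReal.ofReal a * I + ENNReal.ofReal a * I ≠ ∞ := by
      have := ENNReal.mul_ne_top (ENNReal.ofReal_ne_top (r := a)) hI
      exact ENNReal.add_ne_top.2 ⟨this, this⟩
    rw [← h1] at h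
    exact (ENNReal.add_le_add_iff_right h2).1 h

/-- MODULE SCH. -/
theorem hSCH (hCHI : StCHI) (hKRN : StKRN) (hALP : StALP) (hSW0 : StSW0) (hACU : StACU)
    (hEIS : StEIS) : StSCH := by
  intro Γ _ ρ A B hKD D hD s hs0 hsum φ hφm hφi hI
  obtain ⟨hcount, hact, -⟩ := hACU Γ ρ A B hKD
  obtain ⟨Fs, hFm, hFpos, hFinv, hFe⟩ := hEIS Γ ρ A B hKD s hs0 hsum
  obtain ⟨hch, hkinv, -, -, -, hkm⟩ := hCHI
  have hDm := hD.mD
  have hDu := hD.sub
  -- abbreviations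
  obtain ⟨k, hk⟩ : ∃ k : Pt → Pt → ℝ≥0∞, k = fun x y => ENNReal.ofReal (kk x y) := ⟨_, rfl⟩
  obtain ⟨u, hu⟩ : ∃ u : Pt → ℝ≥0∞, u = fun x => ENNReal.ofReal |φ x| := ⟨_, rfl⟩
  have hkm' : Measurable (fun p : Pt × Pt => k p.1 p.2) := by
    rw [hk]
    exact hkm.ennreal_ofReal
  have hum : Measurable u := by
    rw [hu]
    exact (hφm.norm).ennreal_ofReal
  have hksym : ∀ x ∈ up, ∀ y ∈ up, k x y = k y x := by
    intro x hx y hy
    simp only [hk, kk, (hch x hx y hy).2.1]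
  have hkinv' : ∀ γ : Γ, ∀ x ∈ up, ∀ y ∈ up, k (au ρ γ x) (au ρ γ y) = k x y := by
    intro γ x hx y hy
    simp only [hk, au, (hkinv (ρ γ) x hx y hy).2]
  have huinv : ∀ γ : Γ, ∀ x ∈ up, u (au ρ γ x) = u x := by
    intro γ x hx
    simp only [hu, hφi γ x hx]
  have hu2 : ∀ x, u x ^ 2 = ENNReal.ofReal (φ x ^ 2) := by
    intro x
    simp only [hu]
    rw [← ENNReal.ofReal_pow (abs_nonneg _), sq_abs]
  obtain ⟨I, hIdef⟩ : ∃ I : ℝ≥0∞, I = ∫⁻ x in D, ENNReal.ofReal (φ x ^ 2) ∂vol := ⟨_, rfl⟩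
  rw [← hIdef] at hI ⊢
  -- exchange of the variables
  have hex : ∀ h : Pt → Pt → ℝ≥0∞, Measurable (fun p : Pt × Pt => h p.1 p.2) →
      (∀ γ : Γ, ∀ x ∈ up, ∀ y ∈ up, h (au ρ γ x) (au ρ γ y) = h x y) →
      ∫⁻ x in D, ∫⁻ y, h x y ∂vol ∂vol = ∫⁻ x in D, ∫⁻ y, h y x ∂vol ∂vol := by
    intro h hm hi
    have := hcount
    rw [hSW0 Γ Pt Pt (au ρ) (au ρ) up D up D vol vol h hact hact hD hD hm hi]
    exact lintegral_lintegral_swap hm.aemeasurable
  -- measurability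
  have hm1 : Measurable (fun p : Pt × Pt => k p.1 p.2 * u p.1 ^ 2) :=
    hkm'.mul ((hum.comp measurable_fst).pow_const 2)
  have hm2 : Measurable (fun p : Pt × Pt => k p.1 p.2 * u p.2 ^ 2) :=
    hkm'.mul ((hum.comp measurable_snd).pow_const 2)
  have hm3 : Measurable (fun p : Pt × Pt => k p.1 p.2 * (u p.1 ^ 2 * (Fs p.2 / Fs p.1))) :=
    hkm'.mul (((hum.comp measurable_fst).pow_const 2).mul
      ((hFm.comp measurable_snd).div (hFm.comp measurable_fst)))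
  have hm4 : Measurable (fun p : Pt × Pt => k p.1 p.2 * (u p.2 ^ 2 * (Fs p.1 / Fs p.2))) :=
    hkm'.mul (((hum.comp measurable_snd).pow_const 2).mul
      ((hFm.comp measurable_fst).div (hFm.comp measurable_snd)))
  have hkmx : ∀ x, Measurable (fun y => k x y) := fun x => hkm'.comp measurable_prodMk_left
  have hkE : ∀ x y, k x y = ENNReal.ofReal (kk x y) := fun x y => by rw [hk]
  have hutop : ∀ x, u x ≠ ∞ := fun x => by
    rw [hu]
    exact ENNReal.ofReal_ne_top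
  have hKRN' : ∀ x ∈ up, ∫⁻ y, k x y ∂vol = ENNReal.ofReal VV := by
    intro x hx
    simp only [hkE]
    exact hKRN.2.1 x hx
  have hFe' : ∀ x ∈ up, ∫⁻ y, k x y * Fs y ∂vol = ENNReal.ofReal (al s) * Fs x := by
    intro x hx
    simp only [hkE]
    exact hFe x hx
  -- the four integrals
  have hA1 : ∫⁻ x in D, ∫⁻ y, k x y * u x ^ 2 ∂vol ∂vol = ENNReal.ofReal VV * I := by
    have h1 : ∀ x ∈ D, ∫⁻ y, k x y * u x ^ 2 ∂vol =
        ENNReal.ofReal VV * ENNReal.ofReal (φ x ^ 2) := by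
      intro x hx
      rw [lintegral_mul_const _ (hkmx x), hKRN' x (hDu hx), hu2]
    rw [setLIntegral_congr_fun hDm h1,
      lintegral_const_mul _ ((hφm.pow_const 2).ennreal_ofReal), hIdef]
  have hA2 : ∫⁻ x in D, ∫⁻ y, k x y * u y ^ 2 ∂vol ∂vol = ENNReal.ofReal VV * I := by
    rw [hex (fun x y => k x y * u y ^ 2) hm2 (fun γ x hx y hy => by
      simp only [hkinv' γ x hx y hy, huinv γ y hy]), ← hA1]
    exact J_congr hDm hDu fun x hx y hy => by rw [hksym y hy x hx]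
  have hA3 : ∫⁻ x in D, ∫⁻ y, k x y * (u x ^ 2 * (Fs y / Fs x)) ∂vol ∂vol =
      ENNReal.ofReal (al s) * I := by
    have h1 : ∀ x ∈ D, ∫⁻ y, k x y * (u x ^ 2 * (Fs y / Fs x)) ∂vol =
        ENNReal.ofReal (al s) * ENNReal.ofReal (φ x ^ 2) := by
      intro x hx
      have hFx := hFpos x (hDu hx)
      have h2 : ∀ y, k x y * (u x ^ 2 * (Fs y / Fs x)) =
          (k x y * Fs y) * (u x ^ 2 * (Fs x)⁻¹) := by
        intro y
        rw [div_eq_mul_inv]
        ring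
      simp_rw [h2]
      rw [lintegral_mul_const (u x ^ 2 * (Fs x)⁻¹)
        (show Measurable (fun y => k x y * Fs y) from (hkmx x).mul hFm), hFe' x (hDu hx), hu2]
      calc ENNReal.ofReal (al s) * Fs x * (ENNReal.ofReal (φ x ^ 2) * (Fs x)⁻¹)
          = ENNReal.ofReal (al s) * ENNReal.ofReal (φ x ^ 2) * (Fs x * (Fs x)⁻¹) := by ring
        _ = ENNReal.ofReal (al s) * ENNReal.ofReal (φ x ^ 2) := by
          rw [ENNReal.mul_inv_cancel hFx.1.ne' hFx.2.ne, mul_one]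
    rw [setLIntegral_congr_fun hDm h1,
      lintegral_const_mul _ ((hφm.pow_const 2).ennreal_ofReal), hIdef]
  have hA4 : ∫⁻ x in D, ∫⁻ y, k x y * (u y ^ 2 * (Fs x / Fs y)) ∂vol ∂vol =
      ENNReal.ofReal (al s) * I := by
    rw [hex (fun x y => k x y * (u y ^ 2 * (Fs x / Fs y))) hm4 (fun γ x hx y hy => by
      simp only [hkinv' γ x hx y hy, huinv γ y hy, hFinv γ x hx, hFinv γ y hy]), ← hA3]
    exact J_congr hDm hDu fun x hx y hy => by rw [hksym y hy x hx]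
  -- the pointwise inequality
  have hpt : ∀ x ∈ up, ∀ y ∈ up, k x y * u x ^ 2 + k x y * u y ^ 2 ≤
      (k x y * (u x ^ 2 * (Fs y / Fs x)) + k x y * (u y ^ 2 * (Fs x / Fs y))) +
        ENNReal.ofReal (kk x y * (φ x - φ y) ^ 2) := by
    intro x hx y hy
    have hFx := hFpos x hx
    have hFy := hFpos y hy
    have h1 : 2 * (u x * u y) ≤ u x ^ 2 * (Fs y / Fs x) + u y ^ 2 * (Fs x / Fs y) :=
      amgm (hutop x) (hutop y) hFx.1.ne' hFx.2.ne hFy.1.ne' hFy.2.ne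
    have hk0 : 0 ≤ kk x y := by
      unfold kk
      split_ifs <;> norm_num
    have h2 : u x ^ 2 + u y ^ 2 ≤ 2 * (u x * u y) + ENNReal.ofReal ((φ x - φ y) ^ 2) := by
      rw [hu2, hu2]
      simp only [hu]
      have h3 : (2 : ℝ≥0∞) = ENNReal.ofReal 2 := by simp
      rw [h3, ← ENNReal.ofReal_mul (abs_nonneg _), ← ENNReal.ofReal_mul (by norm_num),
        ← ENNReal.ofReal_add (sq_nonneg _) (sq_nonneg _),
        ← ENNReal.ofReal_add (by positivity) (sq_nonneg _)]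
      apply ENNReal.ofReal_le_ofReal
      have h4 : φ x * φ y ≤ |φ x| * |φ y| := by
        rw [← abs_mul]
        exact le_abs_self _
      nlinarith
    rw [ENNReal.ofReal_mul hk0, ← hkE]
    calc k x y * u x ^ 2 + k x y * u y ^ 2 = k x y * (u x ^ 2 + u y ^ 2) := by ring
      _ ≤ k x y * (2 * (u x * u y) + ENNReal.ofReal ((φ x - φ y) ^ 2)) := by gcongr
      _ ≤ k x y * ((u x ^ 2 * (Fs y / Fs x) + u y ^ 2 * (Fs x / Fs y)) +
          ENNReal.ofReal ((φ x - φ y) ^ 2)) := by gcongr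
      _ = _ := by ring
  apply final_cancel (hALP.1 s).1 hI
  have h5 := J_mono hDm hDu hpt
  rw [J_add D hm1, J_add D (hm3.add hm4), J_add D hm3, hA1, hA2, hA3, hA4] at h5
  rw [add_comm (∫⁻ x in D, ∫⁻ y, ENNReal.ofReal (kk x y * (φ x - φ y) ^ 2) ∂vol ∂vol)]
  exact h5

end Pool.Agent.Helper40.QA
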